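import Mathlib

namespace Pool.Agent.Results.MP_fd346d_co.Disproof

universe u v

/-- The order of `P` is the intersection of `d` linear extensions of `P`. -/
def Realizable (P : Type u) [PartialOrder P] (d : ℕ) : Prop :=
  ∃ L : Fin d → P → P → Prop,
    (∀ i, IsLinearOrder P (L i)) ∧ (∀ i x y, x ≤ y → L i x y) ∧
      ∀ x y : P, (∀ i, L i x y) → x ≤ y

/-- The dimension of `P`: the least `d` such that the order of `P` is the intersection of `d`
linear extensions (and `⊤` if there is no such natural number). -/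
noncomputable def dim (P : Type u) [PartialOrder P] : ℕ∞ :=
  ⨅ (d : ℕ) (_ : Realizable P d), (d : ℕ∞)

/-- `P` has a least element and a greatest element. -/
def IsBdd (P : Type u) [PartialOrder P] : Prop :=
  (∃ a : P, ∀ x, a ≤ x) ∧ (∃ b : P, ∀ x, x ≤ b)

open Classical in
/-- The number `b(P,Q)` of posets among `P` and `Q` that are not bounded. -/
noncomputable def numUnbdd (P : Type u) (Q : Type v) [PartialOrder P] [PartialOrder Q] : ℕ :=
  (if IsBdd P then 0 else 1) + (if IsBdd Q then 0 else 1)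

/-! ### Generalities on realizers -/

/-- A sufficient condition for realizability: partial orders above `≤` that reverse every
pair `x, y` with `¬ x ≤ y`. -/
theorem realizable_of_reversing {P : Type u} [PartialOrder P] {ι : Type v} [Finite ι] {d : ℕ}
    (hd : Nat.card ι = d) (R : ι → P → P → Prop) (hR : ∀ i, IsPartialOrder P (R i))
    (hext : ∀ i x y, x ≤ y → R i x y) (hrev : ∀ x y, ¬ x ≤ y → ∃ i, R i y x ∧ x ≠ y) :
    Realizable P d := by
  subst hd
  have key : ∀ i, ∃ s : P → P → Prop, IsLinearOrder P s ∧ R i ≤ s := fun i => by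
    have := hR i
    exact extend_partialOrder (R i)
  choose S hS hRS using key
  let e := Finite.equivFin ι
  refine ⟨fun j => S (e.symm j), fun j => hS _, fun j x y h => hRS _ _ _ (hext _ _ _ h), ?_⟩
  intro x y h
  by_contra hxy
  obtain ⟨i, hi, hne⟩ := hrev x y hxy
  have h1 := h (e i)
  simp only [Equiv.symm_apply_apply] at h1
  have h2 := hRS _ _ _ hi
  have := hS i
  exact hne (antisymm_of (S i) h1 h2)

theorem Realizable.of_embedding {P : Type u} {Q : Type v} [PartialOrder P] [PartialOrder Q]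
    (f : P ↪o Q) {d : ℕ} (h : Realizable Q d) : Realizable P d := by
  obtain ⟨L, hL, h1, h2⟩ := h
  refine ⟨fun i x y => L i (f x) (f y), fun i => ?_, fun i x y hxy => h1 i _ _ (f.le_iff_le.2 hxy),
    fun x y hxy => f.le_iff_le.1 (h2 _ _ hxy)⟩
  have := hL i
  exact
    { refl := fun x => refl_of (L i) (f x)
      trans := fun x y z => trans_of (L i)
      antisymm := fun x y h h' => f.injective (antisymm_of (L i) h h')
      total := fun x y => total_of (L i) (f x) (f y) }

theorem dim_le {P : Type u} [PartialOrder P] {d : ℕ} (h : Realizable P d) : dim P ≤ d :=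
  iInf₂_le d h

theorem exists_dim_eq {P : Type u} [PartialOrder P] {d : ℕ} (h : Realizable P d) :
    ∃ m : ℕ, dim P = m ∧ Realizable P m := by
  classical
  have hex : ∃ m, Realizable P m := ⟨d, h⟩
  refine ⟨Nat.find hex, le_antisymm (dim_le (Nat.find_spec hex)) ?_, Nat.find_spec hex⟩
  refine le_iInf₂ fun e he => ?_
  exact_mod_cast Nat.find_min' hex he

theorem dim_eq_of {P : Type u} [PartialOrder P] {d : ℕ} (h : Realizable P d)
    (h' : ∀ e, Realizable P e → d ≤ e) : dim P = d := by
  refine le_antisymm (dim_le h) (le_iInf₂ fun e he => ?_)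
  exact_mod_cast h' e he

/-! ### Boolean lattices and standard examples -/

/-- The proper nonempty subsets of an `n`-element set. -/
abbrev Proper (n : ℕ) : Type := {s : Finset (Fin n) // s.Nonempty ∧ s ≠ Finset.univ}

theorem realizable_bool (n : ℕ) : Realizable (Finset (Fin n)) n := by
  refine realizable_of_reversing (ι := Fin n) (by simp)
    (fun i s t => s ≤ t ∨ (i ∉ s ∧ i ∈ t)) (fun i => ?_) (fun i x y h => Or.inl h) ?_
  · refine { refl := fun s => Or.inl le_rfl, trans := ?_, antisymm := ?_ }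
    · rintro a b c (h | ⟨h1, h2⟩) (h' | ⟨h3, h4⟩)
      · exact Or.inl (h.trans h')
      · exact Or.inr ⟨fun ha => h3 (h ha), h4⟩
      · exact Or.inr ⟨h1, h' h2⟩
      · exact absurd h2 h3
    · rintro a b (h | ⟨h1, h2⟩) (h' | ⟨h3, h4⟩)
      · exact le_antisymm h h'
      · exact absurd (h h4) h3
      · exact absurd (h' h2) h1
      · exact absurd h2 h3
  · intro s t h
    obtain ⟨i, hi, hi'⟩ := Finset.not_subset.1 h
    exact ⟨i, Or.inr ⟨hi', hi⟩, fun hst => hi' (hst ▸ hi)⟩

/-- If a poset contains the standard example `S_n` then its dimension is at least `n`. -/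
theorem le_of_standard {P : Type u} [PartialOrder P] {n e : ℕ} (a b : Fin n → P)
    (h1 : ∀ i, ¬ a i ≤ b i) (h2 : ∀ i j, i ≠ j → a i ≤ b j) (h : Realizable P e) : n ≤ e := by
  obtain ⟨L, hL, hext, hint⟩ := h
  have h3 : ∀ i, ∃ j, ¬ L j (a i) (b i) := by
    intro i
    by_contra hcon
    push Not at hcon
    exact h1 i (hint _ _ hcon)
  choose φ hφ using h3
  have hinj : Function.Injective φ := by
    intro i j hij
    by_contra hne
    have := hL (φ i)
    have e1 : L (φ i) (b i) (a i) := (total_of (L (φ i)) (b i) (a i)).resolve_right (hφ i)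
    have e2 : L (φ i) (b j) (a j) :=
      (total_of (L (φ i)) (b j) (a j)).resolve_right (by rw [hij]; exact hφ j)
    have e3 : L (φ i) (a i) (b j) := hext _ _ _ (h2 i j hne)
    have e4 : L (φ i) (a j) (b i) := hext _ _ _ (h2 j i (Ne.symm hne))
    exact hφ i (trans_of (L (φ i)) e3 (trans_of (L (φ i)) e2 e4))
  simpa using Fintype.card_le_of_injective φ hinj

theorem dim_bool (n : ℕ) : dim (Finset (Fin n)) = n := by
  refine dim_eq_of (realizable_bool n) fun e he => ?_
  refine le_of_standard (fun i => ({i} : Finset (Fin n))) (fun i => {i}ᶜ) ?_ ?_ he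
  · intro i h
    have := h (Finset.mem_singleton_self i)
    simp at this
  · intro i j hij x hx
    rw [Finset.mem_singleton] at hx
    subst hx
    simpa using hij

theorem dim_proper {n : ℕ} (hn : 2 ≤ n) : dim (Proper n) = n := by
  refine dim_eq_of ((realizable_bool n).of_embedding (OrderEmbedding.subtype _)) fun e he => ?_
  have key : ∀ i : Fin n, ∃ j : Fin n, j ≠ i := by
    intro i
    have : Nontrivial (Fin n) := Fin.nontrivial_iff_two_le.2 hn
    exact exists_ne i
  have ha : ∀ i : Fin n, ({i} : Finset (Fin n)).Nonempty ∧ ({i} : Finset (Fin n)) ≠ Finset.univ := by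
    intro i
    refine ⟨Finset.singleton_nonempty i, fun h => ?_⟩
    obtain ⟨j, hj⟩ := key i
    have : j ∈ ({i} : Finset (Fin n)) := h ▸ Finset.mem_univ j
    exact hj (Finset.mem_singleton.1 this)
  have hb : ∀ i : Fin n, ({i}ᶜ : Finset (Fin n)).Nonempty ∧ ({i}ᶜ : Finset (Fin n)) ≠ Finset.univ := by
    intro i
    obtain ⟨j, hj⟩ := key i
    refine ⟨⟨j, by simpa using hj⟩, fun h => ?_⟩
    have : i ∈ ({i}ᶜ : Finset (Fin n)) := h ▸ Finset.mem_univ i
    simp at this
  refine le_of_standard (P := Proper n) (fun i => ⟨{i}, ha i⟩) (fun i => ⟨{i}ᶜ, hb i⟩) ?_ ?_ he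
  · intro i h
    have h' : ({i} : Finset (Fin n)) ≤ {i}ᶜ := h
    have := h' (Finset.mem_singleton_self i)
    simp at this
  · intro i j hij
    show ({i} : Finset (Fin n)) ≤ {j}ᶜ
    intro x hx
    rw [Finset.mem_singleton] at hx
    subst hx
    simpa using hij

theorem isBdd_bool (n : ℕ) : IsBdd (Finset (Fin n)) :=
  ⟨⟨∅, fun x => Finset.empty_subset x⟩, ⟨Finset.univ, fun x => Finset.subset_univ x⟩⟩

theorem not_isBdd_proper {n : ℕ} (hn : 2 ≤ n) : ¬ IsBdd (Proper n) := by
  rintro ⟨⟨a, ha⟩, -⟩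
  have : Nontrivial (Fin n) := Fin.nontrivial_iff_two_le.2 hn
  obtain ⟨i, hi⟩ := a.2.1
  obtain ⟨j, hj⟩ := exists_ne i
  have h : a.1 ≤ {j} := ha ⟨{j}, Finset.singleton_nonempty j, fun h => by
    have : i ∈ ({j} : Finset (Fin n)) := h ▸ Finset.mem_univ i
    exact hj (Finset.mem_singleton.1 this).symm⟩
  exact hj (Finset.mem_singleton.1 (h hi)).symm

/-! ### The poset of one- and two-element subsets -/

/-- The one- and two-element subsets of `V`, ordered by inclusion. -/
abbrev Pairs (V : Type u) : Type u := {s : Finset V // s.Nonempty ∧ s.card ≤ 2}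

/-- Lower bound: if the poset of one- and two-element subsets of `V` has a realizer of size `m`
then `|V| ≤ 2 ^ 2 ^ m`. -/
theorem card_le_of_realizable {V : Type u} [Fintype V] [DecidableEq V] {m : ℕ}
    (h : Realizable (Pairs V) m) : Fintype.card V ≤ 2 ^ 2 ^ m := by
  classical
  obtain ⟨L, hL, hext, hint⟩ := h
  let s : V → Pairs V := fun v => ⟨{v}, Finset.singleton_nonempty v, by simp⟩
  let p : V → V → Pairs V := fun u w => ⟨{u, w}, ⟨u, by simp⟩, Finset.card_le_two⟩
  have hs : ∀ u w, s u ≤ p u w := fun u w => by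
    show ({u} : Finset V) ⊆ {u, w}
    simp
  have hs' : ∀ u w, s w ≤ p u w := fun u w => by
    show ({w} : Finset V) ⊆ {u, w}
    simp
  -- three-suitability
  have three : ∀ v u w : V, v ≠ u → v ≠ w → ∃ i, L i (s u) (s v) ∧ L i (s w) (s v) := by
    intro v u w hu hw
    have : ¬ s v ≤ p u w := by
      intro hle
      have hle' : ({v} : Finset V) ⊆ {u, w} := hle
      have := hle' (Finset.mem_singleton_self v)
      simp only [Finset.mem_insert, Finset.mem_singleton] at this
      exact this.elim hu hw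
    have h3 : ∃ i, ¬ L i (s v) (p u w) := by
      by_contra hcon
      push Not at hcon
      exact this (hint _ _ hcon)
    obtain ⟨i, hi⟩ := h3
    have := hL i
    have h4 : L i (p u w) (s v) := (total_of (L i) (p u w) (s v)).resolve_right hi
    exact ⟨i, trans_of (L i) (hext i _ _ (hs u w)) h4, trans_of (L i) (hext i _ _ (hs' u w)) h4⟩
  let T : V → V → (Fin m → Prop) := fun u v i => L i (s u) (s v)
  let g : V → ((Fin m → Prop) → Prop) := fun v S => ∃ u, u ≠ v ∧ T u v = S
  have hg : Function.Injective g := by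
    intro v v' hvv'
    by_contra hne
    have h1 : g v' (T v v') := ⟨v, hne, rfl⟩
    rw [← hvv'] at h1
    obtain ⟨u, hu, huT⟩ := h1
    obtain ⟨i, hi1, hi2⟩ := three v u v' (Ne.symm hu) hne
    have hi3 : L i (s v) (s v') := by
      have : T u v i := hi1
      rw [huT] at this
      exact this
    have := hL i
    have h5 : s v = s v' := antisymm_of (L i) hi3 hi2
    have h6 : ({v} : Finset V) = {v'} := congrArg Subtype.val h5
    exact hne (Finset.singleton_injective h6)
  have := Fintype.card_le_of_injective g hg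
  simpa using this

theorem not_isBdd_pairs {V : Type u} [DecidableEq V] (x y : V) (hxy : x ≠ y) :
    ¬ IsBdd (Pairs V) := by
  rintro ⟨⟨a, ha⟩, -⟩
  obtain ⟨z, hz⟩ := a.2.1
  have h1 : a.1 ⊆ {x} := ha ⟨{x}, Finset.singleton_nonempty x, by simp⟩
  have h2 : a.1 ⊆ {y} := ha ⟨{y}, Finset.singleton_nonempty y, by simp⟩
  have h3 := Finset.mem_singleton.1 (h1 hz)
  have h4 := Finset.mem_singleton.1 (h2 hz)
  exact hxy (h3.symm.trans h4)

/-- Upper bound: the lexicographic realizer of the product. The linear orders on `V` are given by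
injective maps `e i` into linear orders. -/
theorem realizable_prod {V : Type u} [DecidableEq V] {Q : Type v} [PartialOrder Q]
    {ι : Type} [Finite ι] {n d : ℕ} (hd : Nat.card ι = d) {C : Type*} [LinearOrder C]
    (e : ι → V → C) (col : ι → Fin n) (hsurj : Function.Surjective col)
    (hthree : ∀ v u w : V, v ≠ u → v ≠ w → ∃ i, e i u < e i v ∧ e i w < e i v)
    (hcol : ∀ v w : V, v ≠ w → ∀ c, ∃ i, col i = c ∧ e i w < e i v)
    (hQ : Realizable Q n) : Realizable (Pairs V × Q) d := by
  obtain ⟨M, hM, hext, hint⟩ := hQ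
  let blk : ι → Pairs V → C := fun i p => p.1.sup' p.2.1 (e i)
  have blk_mono : ∀ i (p p' : Pairs V), p ≤ p' → blk i p ≤ blk i p' := fun i p p' h =>
    Finset.sup'_mono (e i) (show p.1 ⊆ p'.1 from h) p.2.1
  have le_blk : ∀ i (p : Pairs V) (v : V), v ∈ p.1 → e i v ≤ blk i p := fun i p v hv =>
    Finset.le_sup' (e i) hv
  have blk_lt : ∀ i (p : Pairs V) (c : C), (∀ v ∈ p.1, e i v < c) → blk i p < c := fun i p c h =>
    (Finset.sup'_lt_iff p.2.1).2 h
  have blk_le : ∀ i (p : Pairs V) (c : C), (∀ v ∈ p.1, e i v ≤ c) → blk i p ≤ c := fun i p c h =>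
    Finset.sup'_le p.2.1 (e i) h
  let R : ι → Pairs V × Q → Pairs V × Q → Prop := fun i x y =>
    blk i x.1 < blk i y.1 ∨ (blk i x.1 = blk i y.1 ∧
      ((M (col i) x.2 y.2 ∧ x.2 ≠ y.2) ∨ (x.2 = y.2 ∧ x.1 ≤ y.1)))
  refine realizable_of_reversing hd R (fun i => ?_) ?_ ?_
  · have := hM (col i)
    refine { refl := fun s => Or.inr ⟨rfl, Or.inr ⟨rfl, le_rfl⟩⟩, trans := ?_, antisymm := ?_ }
    · rintro a b c (h | ⟨h1, h2⟩) (h' | ⟨h3, h4⟩)
      · exact Or.inl (h.trans h')
      · exact Or.inl (h.trans_eq h3)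
      · exact Or.inl (h1.trans_lt h')
      · refine Or.inr ⟨h1.trans h3, ?_⟩
        rcases h2 with ⟨h5, h6⟩ | ⟨h5, h6⟩
        · rcases h4 with ⟨h7, h8⟩ | ⟨h7, h8⟩
          · refine Or.inl ⟨trans_of (M (col i)) h5 h7, fun hac => ?_⟩
            rw [← hac] at h7
            exact h6 (antisymm_of (M (col i)) h5 h7)
          · exact Or.inl ⟨h7 ▸ h5, h7 ▸ h6⟩
        · rcases h4 with ⟨h7, h8⟩ | ⟨h7, h8⟩
          · exact Or.inl ⟨h5 ▸ h7, h5 ▸ h8⟩
          · exact Or.inr ⟨h5.trans h7, h6.trans h8⟩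
    · rintro a b (h | ⟨h1, h2⟩) (h' | ⟨h3, h4⟩)
      · exact absurd h (lt_asymm h')
      · exact absurd h (by rw [h3]; exact lt_irrefl _)
      · exact absurd h' (by rw [h1]; exact lt_irrefl _)
      · rcases h2 with ⟨h5, h6⟩ | ⟨h5, h6⟩
        · rcases h4 with ⟨h7, h8⟩ | ⟨h7, h8⟩
          · exact absurd (antisymm_of (M (col i)) h5 h7) h6
          · exact absurd h7.symm h6
        · rcases h4 with ⟨h7, h8⟩ | ⟨h7, h8⟩
          · exact absurd h5.symm h8
          · exact Prod.ext (le_antisymm h6 h8) h5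
  · intro i x y hxy
    rcases (blk_mono i _ _ hxy.1).lt_or_eq with h | h
    · exact Or.inl h
    · refine Or.inr ⟨h, ?_⟩
      by_cases hq : x.2 = y.2
      · exact Or.inr ⟨hq, hxy.1⟩
      · exact Or.inl ⟨hext _ _ _ hxy.2, hq⟩
  · intro x y hxy
    have hne : x ≠ y := fun h => hxy (le_of_eq h)
    suffices hs : ∃ i, R i y x by
      obtain ⟨i, hi⟩ := hs
      exact ⟨i, hi, hne⟩
    by_cases hp : x.1 ≤ y.1
    · -- the first coordinates are comparable, so the second ones are not
      have hq : ¬ x.2 ≤ y.2 := fun h => hxy ⟨hp, h⟩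
      have hqne : y.2 ≠ x.2 := fun h => hq (le_of_eq h.symm)
      obtain ⟨c, hc⟩ : ∃ c, ¬ M c x.2 y.2 := by
        by_contra hcon
        push Not at hcon
        exact hq (hint _ _ hcon)
      obtain ⟨v, hv⟩ := x.1.2.1
      have hvy : v ∈ y.1.1 := (show x.1.1 ⊆ y.1.1 from hp) hv
      -- choose an index of colour c for which v is the top element of y.1
      obtain ⟨i, hi, htop⟩ : ∃ i, col i = c ∧ ∀ w ∈ y.1.1, e i w ≤ e i v := by
        by_cases hcard : ∃ w ∈ y.1.1, w ≠ v
        · obtain ⟨w, hw, hwv⟩ := hcard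
          obtain ⟨i, hi, hlt⟩ := hcol v w (Ne.symm hwv) c
          refine ⟨i, hi, fun z hz => ?_⟩
          by_cases hzv : z = v
          · rw [hzv]
          · by_cases hzw : z = w
            · rw [hzw]; exact hlt.le
            · exfalso
              have h3 : ({z, w, v} : Finset V) ⊆ y.1.1 := by
                intro t ht
                simp only [Finset.mem_insert, Finset.mem_singleton] at ht
                rcases ht with h | h | h <;> rw [h] <;> assumption
              have h4 : ({z, w, v} : Finset V).card = 3 := by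
                rw [Finset.card_eq_three]
                exact ⟨z, w, v, hzw, hzv, hwv, rfl⟩
              have h5 := Finset.card_le_card h3
              have h6 := y.1.2.2
              omega
        · push Not at hcard
          obtain ⟨i, hi⟩ := hsurj c
          exact ⟨i, hi, fun z hz => by rw [hcard z hz]⟩
      have hblk : blk i y.1 = blk i x.1 := by
        refine le_antisymm ?_ (blk_mono i _ _ hp)
        exact (blk_le i _ _ htop).trans (le_blk i _ _ hv)
      refine ⟨i, Or.inr ⟨hblk, Or.inl ⟨?_, hqne⟩⟩⟩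
      have := hM c
      rw [hi]
      exact (total_of (M c) y.2 x.2).resolve_right hc
    · obtain ⟨v, hv, hvy⟩ := Finset.not_subset.1 (show ¬ x.1.1 ⊆ y.1.1 from hp)
      obtain ⟨i, hi⟩ : ∃ i, ∀ w ∈ y.1.1, e i w < e i v := by
        obtain ⟨u, hu⟩ := y.1.2.1
        by_cases hcard : ∃ w ∈ y.1.1, w ≠ u
        · obtain ⟨w, hw, hwu⟩ := hcard
          obtain ⟨i, hi1, hi2⟩ := hthree v u w (fun h => hvy (h ▸ hu)) (fun h => hvy (h ▸ hw))
          refine ⟨i, fun z hz => ?_⟩
          by_cases hzu : z = u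
          · rw [hzu]; exact hi1
          · by_cases hzw : z = w
            · rw [hzw]; exact hi2
            · exfalso
              have h3 : ({z, w, u} : Finset V) ⊆ y.1.1 := by
                intro t ht
                simp only [Finset.mem_insert, Finset.mem_singleton] at ht
                rcases ht with h | h | h <;> rw [h] <;> assumption
              have h4 : ({z, w, u} : Finset V).card = 3 := by
                rw [Finset.card_eq_three]
                exact ⟨z, w, u, hzw, hzu, hwu, rfl⟩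
              have h5 := Finset.card_le_card h3
              have h6 := y.1.2.2
              omega
        · push Not at hcard
          obtain ⟨i, hi1, hi2⟩ := hthree v u u (fun h => hvy (h ▸ hu)) (fun h => hvy (h ▸ hu))
          exact ⟨i, fun z hz => by rw [hcard z hz]; exact hi1⟩
      exact ⟨i, Or.inl ((blk_lt i _ _ hi).trans_le (le_blk i _ _ hv))⟩

/-! ### The family of bipartitions -/

/-- Nonconstant maps from a three-element set to `Bool`. -/
abbrev Three : Type := {g : Fin 3 → Bool // (∃ i, g i = true) ∧ ∃ i, g i = false}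

theorem card_three : Fintype.card Three = 6 := by decide

/-- The index set of the realizer. -/
abbrev Idx (n : ℕ) : Type := (Fin n × Fin 3) ⊕ Bool

theorem exists_family {n K : ℕ} (hK : (3 * n + 1) * K < 6 ^ n) :
    ∃ (N : ℕ) (F : Fin N → Idx n → Bool), K < N ∧
      (∀ a c β, ∃ j, F a (Sum.inl (c, j)) = β) ∧
      (∀ a b, a ≠ b → ∀ β γ, ∃ i, F a i = β ∧ F b i = γ) := by
  classical
  let S := Fin n → Three
  have hcardS : Fintype.card S = 6 ^ n := by
    simp only [S, Fintype.card_fun, card_three, Fintype.card_fin]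
  let A : S → Finset (Fin n × Fin 3) := fun f => Finset.univ.filter fun p => (f p.1).1 p.2 = true
  have hA : Function.Injective A := by
    intro f g hfg
    funext c
    apply Subtype.ext
    funext j
    have h1 : (c, j) ∈ A f ↔ (c, j) ∈ A g := by rw [hfg]
    simp only [A, Finset.mem_filter, Finset.mem_univ, true_and] at h1
    exact Bool.eq_iff_iff.2 h1
  have hle : ∀ f, (A f).card ≤ 3 * n := by
    intro f
    have := Finset.card_le_univ (A f)
    simp only [Fintype.card_prod, Fintype.card_fin] at this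
    omega
  obtain ⟨y, -, hy⟩ := Finset.exists_lt_card_fiber_of_mul_lt_card_of_maps_to
    (s := (Finset.univ : Finset S)) (t := Finset.range (3 * n + 1)) (f := fun f => (A f).card)
    (n := K) (fun f _ => Finset.mem_range.2 (Nat.lt_succ_of_le (hle f)))
    (by rw [Finset.card_range, Finset.card_univ, hcardS]; exact hK)
  let T : Finset S := Finset.univ.filter fun f => (A f).card = y
  have hT : K < T.card := hy
  let en := T.equivFin.symm
  let F : Fin T.card → Idx n → Bool := fun a i =>
    match i with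
    | Sum.inl p => ((en a).1 p.1).1 p.2
    | Sum.inr b => b
  refine ⟨T.card, F, hT, ?_, ?_⟩
  · intro a c β
    cases β with
    | true => exact ((en a).1 c).2.1
    | false => exact ((en a).1 c).2.2
  · intro a b hab β γ
    have key : ∀ a b : Fin T.card, a ≠ b → ∃ i, F a i = true ∧ F b i = false := by
      intro a b hab
      have h1 : (A (en a).1).card = y := (Finset.mem_filter.1 (en a).2).2
      have h2 : (A (en b).1).card = y := (Finset.mem_filter.1 (en b).2).2
      have h3 : A (en a).1 ≠ A (en b).1 := fun h => hab (en.injective (Subtype.ext (hA h)))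
      have h4 : ¬ A (en a).1 ⊆ A (en b).1 := fun h =>
        h3 (Finset.eq_of_subset_of_card_le h (by rw [h1, h2]))
      obtain ⟨p, hp, hp'⟩ := Finset.not_subset.1 h4
      refine ⟨Sum.inl p, (Finset.mem_filter.1 hp).2, ?_⟩
      simp only [A, Finset.mem_filter, Finset.mem_univ, true_and, Bool.not_eq_true] at hp'
      exact hp'
    cases β with
    | true =>
      cases γ with
      | true => exact ⟨Sum.inr true, rfl, rfl⟩
      | false => exact key a b hab
    | false =>
      cases γ with
      | true =>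
        obtain ⟨i, h1, h2⟩ := key b a (Ne.symm hab)
        exact ⟨i, h2, h1⟩
      | false => exact ⟨Sum.inr false, rfl, rfl⟩

theorem exists_first_diff {N : ℕ} (v w : Fin N → Bool) (h : v ≠ w) :
    ∃ a, v a ≠ w a ∧ ∀ b < a, v b = w b := by
  obtain ⟨a, ha, hmin⟩ := WellFounded.has_min (wellFounded_lt (α := Fin N)) {a | v a ≠ w a}
    (Function.ne_iff.1 h)
  exact ⟨a, ha, fun b hb => by
    by_contra hcon
    exact hmin b hcon hb⟩

theorem lex_lt {N : ℕ} {ι : Type} (F : Fin N → ι → Bool) (i : ι) (v w : Fin N → Bool) (a : Fin N)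
    (h1 : v a ≠ w a) (h2 : ∀ b < a, v b = w b) (h3 : F a i = v a) :
    (toLex fun a => (w a == F a i) : Lex (Fin N → Bool)) < toLex fun a => (v a == F a i) := by
  refine ⟨a, fun j hj => ?_, ?_⟩
  · show (w j == F j i) = (v j == F j i)
    rw [h2 j hj]
  · show (w a == F a i) < (v a == F a i)
    rw [h3]
    have : (w a == v a) = false := by
      simpa using Ne.symm h1
    rw [this]
    simp

theorem realizable_pairs_prod {n K : ℕ} (hn : 0 < n) (hK : (3 * n + 1) * K < 6 ^ n) :
    ∃ N : ℕ, K < N ∧ ∀ (Q : Type v) [PartialOrder Q], Realizable Q n →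
      Realizable (Pairs (Fin N → Bool) × Q) (3 * n + 2) := by
  obtain ⟨N, F, hN, hR, hI⟩ := exists_family hK
  refine ⟨N, hN, fun Q _ hQ => ?_⟩
  let col : Idx n → Fin n := fun i => match i with
    | Sum.inl p => p.1
    | Sum.inr _ => ⟨0, hn⟩
  refine realizable_prod (ι := Idx n) (C := Lex (Fin N → Bool)) ?_
    (fun i v => toLex fun a => (v a == F a i)) col ?_ ?_ ?_ hQ
  · simp [Idx]
    ring
  · intro c
    exact ⟨Sum.inl (c, 0), rfl⟩
  · intro v u w hu hw
    obtain ⟨a, ha, ha'⟩ := exists_first_diff v u hu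
    obtain ⟨b, hb, hb'⟩ := exists_first_diff v w hw
    by_cases hab : a = b
    · subst hab
      obtain ⟨j, hj⟩ := hR a ⟨0, hn⟩ (v a)
      exact ⟨_, lex_lt F _ v u a ha ha' hj, lex_lt F _ v w a hb hb' hj⟩
    · obtain ⟨i, hi1, hi2⟩ := hI a b hab (v a) (v b)
      exact ⟨i, lex_lt F _ v u a ha ha' hi1, lex_lt F _ v w b hb hb' hi2⟩
  · intro v w hvw c
    obtain ⟨a, ha, ha'⟩ := exists_first_diff v w hvw
    obtain ⟨j, hj⟩ := hR a c (v a)
    exact ⟨Sum.inl (c, j), rfl, lex_lt F _ v w a ha ha' hj⟩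

theorem exists_large (k : ℕ) : ∃ n : ℕ, 2 ≤ n ∧ (3 * n + 1) * 2 ^ (2 * n + 4 + k) < 6 ^ n := by
  have h := tendsto_pow_const_div_const_pow_of_one_lt 1 (show (1 : ℝ) < 3 / 2 by norm_num)
  have h1 : ∀ᶠ n : ℕ in Filter.atTop, (n : ℝ) ^ 1 / (3 / 2 : ℝ) ^ n < 1 / 2 ^ (k + 6) :=
    h.eventually_lt_const (by positivity)
  obtain ⟨n, hn, hn2⟩ := (h1.and (Filter.eventually_ge_atTop 2)).exists
  refine ⟨n, hn2, ?_⟩
  have h2 : (n : ℝ) * 2 ^ (k + 6) < (3 / 2 : ℝ) ^ n := by
    rw [pow_one, div_lt_div_iff₀ (by positivity) (by positivity), one_mul] at hn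
    exact hn
  have h3 : ((3 * n + 1 : ℕ) : ℝ) ≤ 4 * n := by
    have : (1 : ℝ) ≤ n := by exact_mod_cast (by omega : 1 ≤ n)
    push_cast
    linarith
  have h4 : (((3 * n + 1) * 2 ^ (2 * n + 4 + k) : ℕ) : ℝ) < ((6 ^ n : ℕ) : ℝ) := by
    have e1 : (((3 * n + 1) * 2 ^ (2 * n + 4 + k) : ℕ) : ℝ) =
        ((3 * n + 1 : ℕ) : ℝ) * (4 ^ n * 2 ^ (k + 4)) := by
      push_cast
      have : (4 : ℝ) ^ n = 2 ^ (2 * n) := by rw [pow_mul]; norm_num
      rw [this]
      ring
    have e2 : ((6 ^ n : ℕ) : ℝ) = (3 / 2 : ℝ) ^ n * 4 ^ n := by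
      push_cast
      rw [← mul_pow]
      norm_num
    rw [e1, e2]
    calc ((3 * n + 1 : ℕ) : ℝ) * (4 ^ n * 2 ^ (k + 4)) ≤ (4 * n) * (4 ^ n * 2 ^ (k + 4)) := by
          gcongr
      _ = (n : ℝ) * 2 ^ (k + 6) * 4 ^ n := by ring
      _ < (3 / 2 : ℝ) ^ n * 4 ^ n := by gcongr
  exact_mod_cast h4

theorem realizable_of_dim_eq {Q : Type v} [PartialOrder Q] {n : ℕ} (h : dim Q = n) :
    Realizable Q n := by
  have hex : ∃ d, Realizable Q d := by
    by_contra hcon
    push Not at hcon
    have : dim Q = ⊤ := by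
      simp only [dim, hcon, iInf_false, iInf_top]
    rw [this] at h
    exact absurd h.symm (by simp)
  obtain ⟨d, hd⟩ := hex
  obtain ⟨m, hm, hm'⟩ := exists_dim_eq hd
  have : m = n := by
    rw [hm] at h
    exact_mod_cast h
  exact this ▸ hm'

theorem realizable_punit (n : ℕ) : Realizable PUnit.{v + 1} n :=
  ⟨fun _ _ _ => True, fun _ =>
    { refl := fun _ => trivial
      trans := fun _ _ _ _ _ => trivial
      antisymm := fun _ _ _ _ => rfl
      total := fun _ _ => Or.inl trivial }, fun _ _ _ _ => trivial, fun _ _ _ => le_rfl⟩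

/-- Core statement: one finite unbounded poset works against every poset of dimension `n`. -/
theorem core (k : ℕ) : ∃ (n m : ℕ) (V : Type) (_ : Fintype V) (_ : DecidableEq V), 2 ≤ n ∧
    dim (Pairs V) = m ∧ ¬ IsBdd (Pairs V) ∧ Nonempty (Pairs V) ∧
      ∀ (Q : Type v) [PartialOrder Q], dim Q = n → dim (Pairs V × Q) + 2 + k < m + n := by
  obtain ⟨n, hn2, hn⟩ := exists_large k
  obtain ⟨N, hN, hprod⟩ := realizable_pairs_prod.{v} (by omega) hn
  have hP : Realizable (Pairs (Fin N → Bool)) (3 * n + 2) := by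
    refine (hprod PUnit (realizable_punit n)).of_embedding
      { toFun := fun p => (p, PUnit.unit)
        inj' := fun p q h => congrArg Prod.fst h
        map_rel_iff' := ?_ }
    intro p q
    exact ⟨fun h => h.1, fun h => ⟨h, le_rfl⟩⟩
  obtain ⟨m, hm, hm'⟩ := exists_dim_eq hP
  have hcard := card_le_of_realizable hm'
  have hNm : N ≤ 2 ^ m := by
    have : 2 ^ N ≤ 2 ^ 2 ^ m := by simpa using hcard
    exact (Nat.pow_le_pow_iff_right (by norm_num)).1 this
  have hlt : 2 * n + 4 + k < m :=
    (Nat.pow_lt_pow_iff_right (by norm_num : 1 < 2)).1 (hN.trans_le hNm)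
  have hNpos : 0 < N := lt_of_le_of_lt (Nat.zero_le _) hN
  refine ⟨n, m, Fin N → Bool, inferInstance, inferInstance, hn2, hm, ?_, ?_, ?_⟩
  · refine not_isBdd_pairs (fun _ => true) (fun _ => false) ?_
    intro h
    have := congrFun h ⟨0, hNpos⟩
    simp at this
  · exact ⟨⟨{fun _ => true}, Finset.singleton_nonempty _, by simp⟩⟩
  · intro Q _ hQ
    have h1 := dim_le (hprod Q (realizable_of_dim_eq hQ))
    calc dim (Pairs (Fin N → Bool) × Q) + 2 + k ≤ ((3 * n + 2 : ℕ) : ℕ∞) + 2 + k := by gcongr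
      _ = ((3 * n + 2 + 2 + k : ℕ) : ℕ∞) := by push_cast; rfl
      _ < ((m + n : ℕ) : ℕ∞) := by
        have : 3 * n + 2 + 2 + k < m + n := by omega
        exact_mod_cast this
      _ = m + n := by push_cast; rfl

/-- **Disproof.** For each of the two cases `b = 1` and `b = 2` of the question and for every `k`
there are finite nonempty posets `P`, `Q`, exactly `b` of which are not bounded, such that
`dim (P × Q) < dim P + dim Q - b - k`. -/
theorem result (k b : ℕ) (hb : b = 1 ∨ b = 2) :
    ∃ (P Q : Type) (_ : PartialOrder P) (_ : PartialOrder Q),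
      Finite P ∧ Finite Q ∧ Nonempty P ∧ Nonempty Q ∧ dim P ≠ ⊤ ∧ dim Q ≠ ⊤ ∧
        numUnbdd P Q = b ∧ dim (P × Q) + b + k < dim P + dim Q := by
  obtain ⟨n, m, V, _, _, hn, hm, hP, hne, h⟩ := core.{0} k
  rcases hb with rfl | rfl
  · refine ⟨Pairs V, Finset (Fin n), inferInstance, inferInstance, inferInstance, inferInstance,
      hne, inferInstance, ?_, ?_, ?_, ?_⟩
    · rw [hm]; exact ENat.natCast_ne_top m
    · rw [dim_bool]; exact ENat.natCast_ne_top n
    · simp [numUnbdd, hP, isBdd_bool n]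
    · have h1 := h (Finset (Fin n)) (dim_bool n)
      rw [hm, dim_bool]
      refine lt_of_le_of_lt ?_ h1
      gcongr
      norm_num
  · refine ⟨Pairs V, Proper n, inferInstance, inferInstance, inferInstance, inferInstance,
      hne, ?_, ?_, ?_, ?_, ?_⟩
    · refine ⟨⟨{⟨0, by omega⟩}, Finset.singleton_nonempty _, fun h0 => ?_⟩⟩
      have h2 : (⟨1, by omega⟩ : Fin n) ∈ ({⟨0, by omega⟩} : Finset (Fin n)) :=
        h0 ▸ Finset.mem_univ _
      simp at h2
    · rw [hm]; exact ENat.natCast_ne_top m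
    · rw [dim_proper hn]; exact ENat.natCast_ne_top n
    · simp [numUnbdd, hP, not_isBdd_proper hn]
    · have h1 := h (Proper n) (dim_proper hn)
      rw [hm, dim_proper hn]
      exact_mod_cast h1

end Pool.Agent.Results.MP_fd346d_co.Disproof
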